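import Pool.Agent.Run7.h460.DG.Alg
import Pool.Agent.Run7.h460.QD.CubeP
import Pool.Agent.Results.MP_d6ddbd_nt.CubicTwists

/-!
# One partial algorithm for all the diagonal cubics `a x³ + b y³ = c`, inside dense sets

We construct a partial computable function `φ` on the polynomials `f(x, y)` with integer coefficients
(lists of coefficient lists) with the following properties.

1. Whenever `φ(f)` is defined, it answers correctly the question whether `f(x, y) = 0` has infinitely
   many rational solutions.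
2. For all nonzero integers `a, b, c`: if `a x³ + b y³ = c` has infinitely many rational solutions, then
   `φ` says so.
3. Let `D` be cube-free, prime to `3`, not `±1` modulo `9`, with exactly one prime factor `≡ 2` modulo `3`.
   For all nonzero integers `a, b, c` such that `a b c` is `D` times a cube, `φ` has the value `false` at
   `a x³ + b y³ - c` if and only if `E_D(ℚ)` is finite and `Ш(E_D/ℚ)[3^∞] = 0`, where
   `E_D : y² + D y = x³`. These curves of genus one have no rational points in general.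
4. The family `𝓕`: the squarefree `D` prime to `3`, not `±1` modulo `9`, with exactly one prime factor
   `≡ 2` modulo `3`, ordered by size. Let `S` be an arbitrary set (perhaps not computable) of upper density
   at least `δ` in `𝓕`, `T` a finite set of multipliers (cube-free numbers all of whose prime factors are
   `1` modulo `9`) and `V ⊆ T`. For all but at most `4 |T|² / ε²` multipliers `m` (a bound which does not
   depend on `S`) the `D ∈ S` with the following property have upper density at least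
   `δ c^|V| (1 - c)^(|T| - |V|) - ε` in `𝓕`, `c = ∏_{i ≥ 1} (1 - 3^{-i}) = 0.5601...`: for all `t ∈ T` and
   all diagonal cubics `a x³ + b y³ = c'` such that `a b c'` is `D m t` times a nonzero cube, `φ` halts and
   proves the finiteness exactly if `t ∈ V`. In particular (`V = T`) `φ` decides all the diagonal cubics
   belonging to `D m t`, `t ∈ T`, for a proportion of at least `c^|T| - ε / δ` of the `D ∈ S`.
5. Every infinite set of multipliers contains a sequence `m_0, m_1, ...` along which every behaviour of the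
   algorithm for the numbers `D ∏_{i ∈ J} m_i` (`J` a nonempty subset of `{0, ..., n - 1}`) occurs for a set
   of `D ∈ S` of positive upper density, if `S` has positive upper density.
6. If `S` is the whole family the proportion in 4 is exactly `c^|V| (1 - c)^(|T| - |V|)`.

The starting files `CubicTwists` (helper395 and others) and `ManyCubicTwists` have an algorithm for the
polynomials `x³ + y³ - A`; the joint law of finitely many twists, `D` prime to the multipliers, is the
starting project R432/JG. The step to all diagonal cubics is in `Run7/h460/DG`: the map of degree nine to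
`X³ + Y³ = a b c` has finite fibres, and it is compatible with the tangent process, so that one rational
point which is not a flex gives infinitely many by Hurwitz's doubling argument. The passage to dense sets
is the second moment method, after helper428.
-/

set_option autoImplicit false

open scoped Classical
open Filter Topology

namespace Pool.Agent.Results.MP_d6ddbd_nt.DiagonalCubics

open Pool.Agent.Results.MP_d6ddbd_nt.CubicTwists (Zeros Class TrivialThree)

/-- the polynomial `a x³ + b y³ - c` -/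
def diag (a b c : ℤ) : List (List ℤ) := [[-c, 0, 0, b], [], [], [a]]

/-- The diagonal cubic `a x³ + b y³ = c` belongs to `n`: the product `a b c` is `n` times a nonzero cube. -/
def Belongs (a b c : ℤ) (n : ℕ) : Prop := ∃ k : ℤ, k ≠ 0 ∧ a * b * c = n * k ^ 3

/-- The family: `D` is squarefree, prime to `3`, not `±1` modulo `9`, and has exactly one prime factor
congruent to `2` modulo `3`. -/
def Family (D : ℕ) : Prop :=
  Squarefree D ∧ ¬ 3 ∣ D ∧ D % 9 ≠ 1 ∧ D % 9 ≠ 8 ∧
    ∃ q : ℕ, q.Prime ∧ q % 3 = 2 ∧ q ∣ D ∧ ∀ p : ℕ, p.Prime → p ∣ D → p ≠ q → p % 3 = 1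

/-- The multipliers: cube-free numbers all of whose prime factors are `1` modulo `9`. -/
def IsMultiplier (m : ℕ) : Prop :=
  m ≠ 0 ∧ (∀ p : ℕ, p.Prime → ¬ p ^ 3 ∣ m) ∧ ∀ p : ℕ, p.Prime → p ∣ m → p % 9 = 1

/-- The number of the `D ≤ X` of the family that belong to `S`. -/
noncomputable def count (S : Set ℕ) (X : ℕ) : ℕ :=
  ((Finset.Icc 1 X).filter fun D => Family D ∧ D ∈ S).card

/-- The upper density of `S` in the family is at least `δ`. -/
def UpperDensity (S : Set ℕ) (δ : ℝ) : Prop :=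
  ∀ ε : ℝ, 0 < ε → ∃ᶠ X : ℕ in atTop, (δ - ε) * (count Set.univ X : ℝ) ≤ (count S X : ℝ)

/-- `c = ∏_{i ≥ 1} (1 - 3^{-i})`. -/
noncomputable def c : ℝ := ∏' i : ℕ, (1 - (1 / 3 : ℝ) ^ (i + 1))

section proof

open Run7.h460.JL.Mix (cn UD)
open Run7.h460.QD (Large)
open Run7.h460.QD.Q (SC cf IsMult IsNine cn_card cn_univ card_tendsto cls_cf cf_spec cf_mul_cube
  cf_of_free)
open Pool.Agent.R432.JG (Cl cl_iff)
open Pool.Agent.Y703.CT (Cls)
open Pool.Agent.Results.MP_d6ddbd_nt.CubicTwists (class_iff three_iff sol_two)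

theorem fam_iff (D : ℕ) : Family D ↔ Cl ∅ D := by
  rw [cl_iff]
  unfold Family
  simp

theorem empty_ok : ∀ q ∈ (∅ : Finset ℕ), q.Prime ∧ q % 9 = 1 := fun q hq =>
  absurd hq (Finset.notMem_empty q)

theorem count_eq (A : Set ℕ) (X : ℕ) : (count A X : ℝ) = cn (SC ∅ X) A :=
  (cn_card fam_iff A X).symm

theorem count_univ (X : ℕ) : (count Set.univ X : ℝ) = ((SC ∅ X).card : ℝ) :=
  (count_eq _ _).trans (cn_univ X)

theorem ud_iff (A : Set ℕ) (δ : ℝ) : UpperDensity A δ ↔ UD (SC ∅) A δ := by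
  unfold UpperDensity UD
  simp only [count_eq, cn_univ]

theorem diag_eq (a b c : ℤ) : diag a b c = Run7.h460.DG.diag a b c := rfl

theorem zeros_eq (a b c : ℤ) : Zeros (diag a b c) = Run7.h460.DG.DS a b c := by
  ext ⟨x, y⟩
  unfold Zeros diag Run7.h460.DG.DS
  simp only [Set.mem_ofPred_eq, List.length_cons, List.length_nil, Finset.sum_range_succ,
    Finset.sum_range_zero, List.getD_cons_zero, List.getD_cons_succ, List.getD_nil]
  push_cast
  constructor
  · intro h
    linear_combination h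
  · intro h
    linear_combination h

theorem sol_class {D : ℕ} (h1 : Cls D) (h4 : Pool.Agent.Y703.CT.NoSplit D) :
    (Pool.Agent.R395.CT.Sol D).Finite :=
  Pool.Agent.R395.CT.sol_finite (by exact_mod_cast h1.1.1) (Pool.Agent.R395.CT.triv3_of h1 h4).1

/-- the property of `φ` used for the laws -/
def Decides (φ : List (List ℤ) →. Bool) : Prop :=
  ∀ (D : ℕ) (m a b c : ℤ), Cls D → m ≠ 0 → a * b * c = D * m ^ 3 →
    (false ∈ φ (diag a b c) ↔ Pool.Agent.Y703.CT.NoSplit D)

theorem no_iff {φ : List (List ℤ) →. Bool} (hφ : Decides φ) {D n : ℕ} (hD : Family D)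
    (hn : IsNine n) {a b c : ℤ} (h : Belongs a b c (D * n)) :
    false ∈ φ (diag a b c) ↔ Pool.Agent.Y703.CT.NoSplit (cf (D * n)) := by
  have hC := cls_cf ((fam_iff D).1 hD) hn
  have hn0 : D * n ≠ 0 := mul_ne_zero hD.1.ne_zero hn.1
  obtain ⟨k, hk, h⟩ := h
  obtain ⟨r, hr, h1⟩ := cf_spec hn0
  refine hφ (cf (D * n)) (r * k) a b c hC (mul_ne_zero (by exact_mod_cast hr.ne') hk) ?_
  rw [h, mul_pow, ← mul_assoc]
  congr 1
  exact_mod_cast h1

/-- every number is attained: the polynomial `x³ + y³ - n` -/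
theorem belongs_one (n : ℕ) : Belongs 1 1 n n := ⟨1, one_ne_zero, by ring⟩

/-- `φ` proves the finiteness for all the diagonal cubics of `n`, or for none, as prescribed -/
theorem all_iff {φ : List (List ℤ) →. Bool} (hφ : Decides φ) {D n : ℕ} (hD : Family D)
    (hn : IsNine n) (p : Prop) :
    (∀ a b c : ℤ, Belongs a b c (D * n) → (false ∈ φ (diag a b c) ↔ p)) ↔
      (Pool.Agent.Y703.CT.NoSplit (cf (D * n)) ↔ p) := by
  constructor
  · intro h
    rw [← no_iff hφ hD hn (belongs_one (D * n))]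
    exact h _ _ _ (belongs_one (D * n))
  · intro h a b c hb
    rw [no_iff hφ hD hn hb]
    exact h

end proof

open Run7.h460.QD.Q (SC cf IsMult IsNine)
open Pool.Agent.Results.MP_d6ddbd_nt.CubicTwists (class_iff three_iff sol_two)

/-- **Main theorem.** -/
theorem result : ∃ φ : List (List ℤ) →. Bool,
    -- the algorithm `φ` is correct and finds all the infinite diagonal cubics
    Partrec φ ∧ (∀ L, ∀ r ∈ φ L, (r = true ↔ (Zeros L).Infinite)) ∧
    (∀ a b c : ℤ, a ≠ 0 → b ≠ 0 → c ≠ 0 → (Zeros (diag a b c)).Infinite → true ∈ φ (diag a b c)) ∧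
    -- the value `false`
    (∀ (D : ℕ) (a b c : ℤ), Class D → Belongs a b c D →
      (false ∈ φ (diag a b c) ↔ TrivialThree D)) ∧
    (0.56 : ℝ) < c ∧ Tendsto (fun X => count Set.univ X) atTop atTop ∧
    -- the behaviour on dense sets
    (∀ (S : Set ℕ) (δ : ℝ), UpperDensity S δ →
      ∀ (T V : Finset ℕ), (∀ t ∈ T, IsMultiplier t) → V ⊆ T → ∀ ε : ℝ, 0 < ε →
      ∀ F : Finset ℕ, (∀ m ∈ F, IsMultiplier m) → 4 * (T.card : ℝ) ^ 2 / ε ^ 2 < F.card →
      ∃ m ∈ F, UpperDensity {D | D ∈ S ∧ ∀ t ∈ T, ∀ a b c : ℤ, Belongs a b c (D * (m * t)) →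
          (false ∈ φ (diag a b c) ↔ t ∈ V)}
        (δ * (c ^ V.card * (1 - c) ^ (T.card - V.card)) - ε)) ∧
    -- the behaviour along a sequence of multipliers
    (∀ S : Set ℕ, (∃ δ : ℝ, 0 < δ ∧ UpperDensity S δ) →
      ∀ M : Set ℕ, M.Infinite → (∀ m ∈ M, IsMultiplier m) →
      ∃ m : ℕ → ℕ, Function.Injective m ∧ (∀ i, m i ∈ M) ∧
        ∀ (n : ℕ) (Z : Finset (Finset ℕ)), ∃ δ : ℝ, 0 < δ ∧
          UpperDensity {D | D ∈ S ∧ ∀ J ⊆ Finset.range n, J.Nonempty →
            ∀ a b c : ℤ, Belongs a b c (D * ∏ i ∈ J, m i) →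
              (false ∈ φ (diag a b c) ↔ J ∈ Z)} δ) ∧
    -- the whole family
    ∀ (T V : Finset ℕ), (∀ t ∈ T, IsMultiplier t) → V ⊆ T →
      Tendsto (fun X => (count {D | ∀ t ∈ T, ∀ a b c : ℤ, Belongs a b c (D * t) →
          (false ∈ φ (diag a b c) ↔ t ∈ V)} X : ℝ) /
        (count Set.univ X : ℝ)) atTop (𝓝 (c ^ V.card * (1 - c) ^ (T.card - V.card))) := by
  obtain ⟨φ, k1, hdom, hval⟩ := Run7.h460.DG.exists_alg
  have hinf : ∀ L, Run7.h460.DG.DInf L → (Zeros L).Infinite := by
    intro L h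
    obtain ⟨a, b, c, rfl, hA⟩ := Run7.h460.DG.dInf_sound h
    rw [← diag_eq, zeros_eq]
    exact hA
  have hfin : ∀ L, Run7.h460.DG.DFin L → ¬ (Zeros L).Infinite := by
    rintro L ⟨⟨⟨a, b, c⟩, ⟨D, m⟩⟩, h1, h2, h3, h4⟩
    simp only at h1 h2 h3 h4
    rw [h3, ← diag_eq, zeros_eq]
    have e : a * b * c = (D : ℤ) * m ^ 3 := by rw [h4]; ring
    have hD0 : D ≠ 0 := by
      rcases h1 with h1 | ⟨h1, -⟩
      · rw [h1]
        exact one_ne_zero
      · exact h1.1.1
    have h0 : a * b * c ≠ 0 := by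
      rw [e]
      exact mul_ne_zero (by exact_mod_cast hD0) (pow_ne_zero 3 h2)
    rw [Set.not_infinite]
    refine Run7.h460.DG.finite_of (left_ne_zero_of_mul (left_ne_zero_of_mul h0))
      (right_ne_zero_of_mul (left_ne_zero_of_mul h0)) (right_ne_zero_of_mul h0) ?_
    rw [e, ← Set.not_infinite, Pool.Agent.R395.CT.sol_scale h2, Set.not_infinite]
    rcases h1 with h1 | ⟨h1, h4⟩
    · rw [h1]
      exact Pool.Agent.R395.CT.sol_one
    · exact sol_class h1 h4
  have k2 : ∀ L, ∀ r ∈ φ L, (r = true ↔ (Zeros L).Infinite) := by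
    intro L r hr
    rcases hval L r hr with ⟨rfl, h⟩ | ⟨rfl, h⟩
    · exact ⟨fun _ => hinf L h, fun _ => rfl⟩
    · exact ⟨fun h' => Bool.noConfusion h', fun h' => absurd h' (hfin L h)⟩
  have hdec : Decides φ := by
    intro D m a b c hD hm h
    constructor
    · intro h1
      rcases hval _ _ h1 with ⟨h2, -⟩ | ⟨-, ⟨⟨⟨a', b', c'⟩, ⟨D', m'⟩⟩, h2, h3, h4, h5⟩⟩
      · exact Bool.noConfusion h2
      · simp only at h2 h3 h4 h5
        obtain ⟨rfl, rfl, rfl⟩ := Run7.h460.DG.diag_inj h4
        have e : (D' : ℤ) * m' ^ 3 = D * m ^ 3 := by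
          rw [← h, h5]
          ring
        have hD' : Pool.Agent.R395.CT.CF D' := by
          rcases h2 with h2 | ⟨h2, -⟩
          · rw [h2]
            exact ⟨one_ne_zero, fun p hp hd => by
              have h6 := Nat.dvd_one.1 hd
              have h7 : 1 < p ^ 3 := Nat.one_lt_pow (by norm_num) hp.one_lt
              omega⟩
          · exact ⟨h2.1.1, h2.1.2.2⟩
        have h6 := Pool.Agent.R395.CT.CF.unique hD' ⟨hD.1.1, hD.1.2.2⟩ h3 hm e
        subst h6
        rcases h2 with h2 | ⟨-, h2⟩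
        · exfalso
          obtain ⟨q, hq, -, hqD, -⟩ := ((class_iff D').2 hD).2.2.2.2.2
          rw [h2] at hqD
          exact hq.one_lt.ne' (Nat.dvd_one.1 hqD)
        · exact h2
    · intro h1
      have h2 : (φ (diag a b c)).Dom := (hdom _).2 (Or.inr
        ⟨⟨⟨a, b, c⟩, ⟨D, m⟩⟩, Or.inr ⟨hD, h1⟩, hm, rfl, by
          show a * b * c = (D : ℤ) * (m * m * m)
          rw [h]
          ring⟩)
      have h3 := hval _ _ (Part.get_mem h2)
      rcases h3 with ⟨h3, h4⟩ | ⟨h3, -⟩
      · exfalso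
        refine hfin (diag a b c) ⟨⟨⟨a, b, c⟩, ⟨D, m⟩⟩, Or.inr ⟨hD, h1⟩, hm, rfl, ?_⟩ (hinf _ h4)
        show a * b * c = (D : ℤ) * (m * m * m)
        rw [h]
        ring
      · rw [← h3]
        exact Part.get_mem h2
  refine ⟨φ, k1, k2, ?_, ?_, Pool.Agent.R432.JG.c3_gt, ?_, ?_, ?_, ?_⟩
  · intro a b c ha hb hc h
    have h1 : (φ (diag a b c)).Dom := by
      rw [hdom]
      left
      rw [zeros_eq] at h
      exact Run7.h460.DG.dInf_complete sol_two ha hb hc h
    have h2 := (k2 _ _ (Part.get_mem h1)).2 h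
    rw [← h2]
    exact Part.get_mem h1
  · rintro D a b c hD ⟨k, hk, h⟩
    rw [hdec D k a b c ((class_iff D).1 hD) hk h, three_iff]
    exact (Pool.Agent.R395.CT.triv3_iff ((class_iff D).1 hD)).symm
  · rw [← tendsto_natCast_atTop_iff (R := ℝ)]
    refine (Run7.h460.QD.Q.card_tendsto empty_ok).congr fun X => ?_
    rw [count_univ]
  · intro A δ hA T V hT hV ε hε F hF hc
    obtain ⟨m, hm, h⟩ := Run7.h460.QD.Q.mix_nat empty_ok hT hV ((ud_iff A δ).1 hA) hε hF hc
    refine ⟨m, hm, (ud_iff _ _).2 ?_⟩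
    have e : δ * (c ^ V.card * (1 - c) ^ (T.card - V.card)) - ε =
        Pool.Agent.Y703.CX.c3 ^ V.card * (1 - Pool.Agent.Y703.CX.c3) ^ (T.card - V.card) * δ - ε := by
      show δ * (c ^ V.card * (1 - c) ^ (T.card - V.card)) - ε =
        c ^ V.card * (1 - c) ^ (T.card - V.card) * δ - ε
      ring
    rw [e]
    refine Run7.h460.QD.Q.UD.congr' h fun X D hD hDA => ⟨hDA.1, fun t ht => ?_⟩
    refine (all_iff hdec ((fam_iff D).2 (Run7.h460.QD.Q.mem_SC hD))
      ((Run7.h460.QD.Q.IsMult.nine (hF m hm)).mul (Run7.h460.QD.Q.IsMult.nine (hT t ht))) _).2 ?_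
    exact hDA.2 t ht
  · rintro A ⟨δ, hδ, hA⟩ M hM hMm
    obtain ⟨u, h1, h2, h3⟩ := Run7.h460.QD.Q.sub_nat empty_ok hM hMm ⟨δ, hδ, (ud_iff A δ).1 hA⟩
    refine ⟨u, h1, h2, fun n Z => ?_⟩
    obtain ⟨δ', h4, h5⟩ := h3 n Z
    refine ⟨δ', h4, (ud_iff _ _).2 (Run7.h460.QD.Q.UD.congr' h5 fun X D hD hDA =>
      ⟨hDA.1, fun S hS hne => ?_⟩)⟩
    refine (all_iff hdec ((fam_iff D).2 (Run7.h460.QD.Q.mem_SC hD)) ?_ _).2 (hDA.2 S hS hne)
    clear hDA hne hS
    induction S using Finset.induction_on with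
    | empty =>
      rw [Finset.prod_empty]
      exact ⟨one_ne_zero, fun p hp hd => absurd (Nat.dvd_one.1 hd) hp.one_lt.ne'⟩
    | insert a s ha ih =>
      rw [Finset.prod_insert ha]
      exact (Run7.h460.QD.Q.IsMult.nine (hMm _ (h2 a))).mul ih
  · intro T V hT hV
    have h := Run7.h460.QD.Q.law_nat empty_ok hT hV
    refine h.congr fun X => ?_
    rw [count_eq, count_univ]
    congr 1
    refine Run7.h460.QD.Q.cn_congr fun D hD => ?_
    show (∀ t ∈ T, _) ↔ ∀ t ∈ T, _
    refine forall₂_congr fun t ht => ?_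
    exact (all_iff hdec ((fam_iff D).2 (Run7.h460.QD.Q.mem_SC hD))
      (Run7.h460.QD.Q.IsMult.nine (hT t ht)) _).symm

end Pool.Agent.Results.MP_d6ddbd_nt.DiagonalCubics
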