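import Pool.Agent.Run7.h250.QA.Tr2
import Pool.Agent.Run7.h250.QA.Iso
import Pool.Agent.Run7.h250.QA.Sing
import Pool.Agent.Run7.h843.R11
import Pool.Agent.Run7.h741.S8.Fin
import Pool.Agent.Run7.h289.D18.Fn
import Pool.Agent.N916.GB.Num

/-!
# A partial algorithm which decides a positive proportion of the quadratic twists

We construct a partial computable function `φ` on the set of the polynomials `f(x, y)` with integer
coefficients (lists of coefficient lists) with the following properties.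

1. Whenever `φ(f)` is defined, it answers correctly the question whether `f(x, y) = 0` has infinitely
   many rational solutions.
2. For all integers `a, b, c`: `φ` is defined at `y² - (x³ + a x² + b x + c)` if this polynomial has
   infinitely many rational zeros.
3. Let `u, v` be coprime nonzero integers with `u² ≠ v²`; up to scaling the curves
   `E_{u,v}^D : y² = x (x + u² D) (x + v² D)` are all the curves over `ℚ` with full rational two-torsion
   and a cyclic isogeny of degree four. If `D` is admissible (explicit congruences at the primes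
   dividing `2 u v (u² - v²)`), then `φ` has the value `false` at `E_{u,v}^{D k²}` if and only if
   `E_{u,v}^D(ℚ)` is finite and `Ш(E_{u,v}^D/ℚ)[2^∞] = 0`. For each finite set of pairs, of the
   `m` admissible for all of them exactly the proportion `η = ∏ (1 - 2^{-i}) = 0.2888...` has this
   value for all the curves of the set, and exactly `1 - η` for none of them. So for each curve
   `y² = x (x + α) (x + β)` over `ℚ` with `α β` a square, for at least `a X` of the squarefree `m ≤ X`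
   the algorithm halts at a quadratic twist by `m / t` and proves that it has finitely many points.
4. Let `A_d : y² = x³ - 4 d x² + 2 d² x` (complex multiplication by `ℤ[√-2]`). For all odd squarefree
   `m > 0` and `d = m k²` or `d = -2 m k²` the value of `φ` at `A_d` is `false` if and only if
   `A_m(ℚ)` is finite and `Ш(A_m/ℚ)[2^∞] = 0`; this holds for exactly the proportion `η` of all the odd
   squarefree `m`, also of those in a class modulo `N`.

The starting hand-in `CubicTwists` has the method for `x³ + y³ = A`, with a class of `A` of density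
zero. Here the search for points is a search for one point whose first coordinate is not integral at
two (`Run7/h250/QA/Dbl`, `Cmp`): the doubling map gives infinitely many, and two points which are
close at two differ by such a point.

The arithmetic of the twists: `Run7/h289/D18` (helper289), `Run7/h843/R1` to `R11` (helper843) and the
counts of `Run7/h741` (helper741), `N916/GB`, with many others named there.
-/

set_option autoImplicit false

open Filter Topology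

namespace Pool.Agent.Results.MP_d6ddbd_nt.QuadraticTwists

/-- the set `Z_f(ℚ)` of the rational zeros of `f = ∑ L_(i,j) x^i y^j` -/
def Zeros (L : List (List ℤ)) : Set (ℚ × ℚ) := {p : ℚ × ℚ |
  ∑ i ∈ Finset.range L.length, ∑ j ∈ Finset.range (L.getD i []).length,
    (((L.getD i []).getD j 0 : ℤ) : ℚ) * p.1 ^ i * p.2 ^ j = 0}

/-- the polynomial `y² - (x³ + a x² + b x + c)` -/
def cubic (a b c : ℤ) : List (List ℤ) := [[-c, 0, 1], [-b], [-a], [-1]]

/-- the polynomial `y² - (x³ - 4 d x² + 2 d² x)` -/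
def cm (d : ℤ) : List (List ℤ) := cubic (-4 * d) (2 * d ^ 2) 0

/-- the polynomial `y² - x (x + α) (x + β)` -/
def full (α β : ℤ) : List (List ℤ) := cubic (α + β) (α * β) 0

/-- the curve `y² = x³ + a x² + b x` over `ℚ` -/
def W (a b : ℤ) : WeierstrassCurve ℚ := { a₁ := 0, a₂ := (a : ℚ), a₃ := 0, a₄ := (b : ℚ), a₆ := 0 }

/-- `W(ℚ)` is finite and `Ш(W/ℚ)[2^∞] = 0` -/
structure Trivial (W : WeierstrassCurve ℚ) : Prop where
  finite : Finite W.toAffine.Point
  sha : ∀ (n : ℕ) (x : Pool.Agent.TH841.NF.D.Sha W), 2 ^ n • x = 0 → x = 0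

/-- the curve `A_m : y² = x³ - 4 m x² + 2 m² x` over `ℚ` -/
def A (m : ℕ) : WeierstrassCurve ℚ := W (-4 * m) (2 * (m : ℤ) ^ 2)

/-- the curve `y² = x (x + u² D) (x + v² D)` over `ℚ` -/
def E (u v D : ℤ) : WeierstrassCurve ℚ := W (u ^ 2 * D + v ^ 2 * D) (u ^ 2 * D * (v ^ 2 * D))

/-- the pairs `(u, v)` -/
structure Pair (u v : ℤ) : Prop where
  coprime : IsCoprime u v
  left : u ≠ 0
  right : v ≠ 0
  ne : u ^ 2 ≠ v ^ 2

/-- `D` is admissible for `(u, v)` -/
structure Admissible (u v D : ℤ) : Prop where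
  squarefree : Squarefree D
  three : D.natAbs % 4 = 3
  atUV : ∀ p : ℕ, p.Prime → p ≠ 2 → (p : ℤ) ∣ u * v → ¬ IsSquare (D : ZMod p)
  atDiff : ∀ p : ℕ, p.Prime → p ≠ 2 → (p : ℤ) ∣ u ^ 2 - v ^ 2 → ¬ IsSquare (-(D : ZMod p))
  atTwoPos : 0 < D →
    (u * v % 2 = 1 ∧ (D % 8 = 3 ∨ (u ^ 2 - v ^ 2) % 32 = 16)) ∨ u * v % 4 = 2
  atTwoNeg : D < 0 → (u * v % 2 = 1 ∧ (u ^ 2 - v ^ 2) % 16 = 8) ∨
    (u * v % 2 = 0 ∧ (D.natAbs % 8 = 3 ∨ u * v % 8 = 4))

/-- the triples `t = (u, v, w)`: a pair `(u, v)` and a sign `w = ± 1` -/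
structure Signed (t : ℤ × ℤ × ℤ) : Prop where
  pair : Pair t.1 t.2.1
  sign : t.2.2 = 1 ∨ t.2.2 = -1

/-- `w m` is admissible for `(u, v)`, for all the triples `(u, v, w)` of `F` -/
def Common (F : Finset (ℤ × ℤ × ℤ)) (m : ℕ) : Prop :=
  ∀ t ∈ F, Admissible t.1 t.2.1 (t.2.2 * m)

/-- `φ` has the value `false` at `y² = x (x + u² w m) (x + v² w m)` -/
def No (φ : List (List ℤ) →. Bool) (t : ℤ × ℤ × ℤ) (m : ℕ) : Prop :=
  false ∈ φ (full (t.1 ^ 2 * (t.2.2 * m)) (t.2.1 ^ 2 * (t.2.2 * m)))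

/-- the number of the `m ≤ X` of the class `K` with the property `Q` -/
noncomputable def num (K Q : ℕ → Prop) (X : ℕ) : ℕ := Nat.card {m : ℕ // m ≤ X ∧ K m ∧ Q m}

/-- among the numbers of the class `K` exactly the proportion `θ` has the property `Q` -/
def Proportion (K Q : ℕ → Prop) (θ : ℝ) : Prop :=
  Tendsto (fun X : ℕ => (num K Q X : ℝ) / (num K (fun _ => True) X : ℝ)) atTop (𝓝 θ)

/-- at least `a X` numbers `m ≤ X` are in the class, for some `a > 0` and all large `X` -/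
def Positive (K : ℕ → Prop) : Prop :=
  ∃ a : ℝ, 0 < a ∧ ∀ᶠ X : ℕ in atTop, a * X ≤ (num K (fun _ => True) X : ℝ)

/-- `m` is squarefree and odd -/
def OddSquarefree (m : ℕ) : Prop := Squarefree m ∧ Odd m

/-- the constant `0.2888...` -/
noncomputable def η : ℝ := ∏' i : ℕ, (1 - (1 / 2 : ℝ) ^ (i + 1))

section proof

open Run7.h843.R Pool.Agent.Run7.h250.QA

theorem cubic_eq (a b c : ℤ) : cubic a b c = poly a b c := rfl

theorem zeros_eq (a b c : ℤ) : Zeros (poly a b c) = Pts a b c := by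
  ext ⟨x, y⟩
  unfold Zeros poly Pts
  simp only [Set.mem_ofPred_eq, List.length_cons, List.length_nil, Finset.sum_range_succ,
    Finset.sum_range_zero, List.getD_cons_zero, List.getD_cons_succ]
  push_cast
  constructor
  · intro h
    linear_combination h
  · intro h
    linear_combination h

theorem W_eq (a b : ℤ) : Wc a b 0 = W a b := by
  unfold Wc W
  rw [Int.cast_zero]

theorem trivial_iff (V : WeierstrassCurve ℚ) : Trivial V ↔
    (Finite V.toAffine.Point ∧ ∀ (k : ℕ) (x : Pool.Agent.TH841.NF.D.Sha V), 2 ^ k • x = 0 → x = 0) :=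
  ⟨fun h => ⟨h.1, h.2⟩, fun h => ⟨h.1, h.2⟩⟩

/-! ### the first family -/

theorem ns_eq (m : ℕ) : NsR m ↔ Ns m := Iff.rfl

theorem triv1 {m : ℕ} (hm : Squarefree m) (hm2 : m % 2 = 1) : Trivial (A m) ↔ Ns m := by
  rw [trivial_iff, ← ns_eq]
  exact iffA hm hm2 rfl

theorem fin1 {m : ℕ} (hm : m ≠ 0) (h : Trivial (A m)) :
    (Pts (-(4 * (m : ℤ))) (2 * (m : ℤ) ^ 2) 0).Finite := by
  refine pts_finite ?_ ?_
  · rw [disc_fam]
    have : (m : ℤ) ≠ 0 := by exact_mod_cast hm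
    exact mul_ne_zero (by norm_num) (pow_ne_zero 6 this)
  · rw [W_eq, show -(4 * (m : ℤ)) = -4 * (m : ℤ) by ring]
    exact h.finite

theorem fin1_all {m : ℕ} {k d : ℤ} (hm : m ≠ 0) (hk : k ≠ 0) (h : Trivial (A m))
    (hd : d = m * k ^ 2 ∨ d = -2 * (m * k ^ 2)) : (Pts (-4 * d) (2 * d ^ 2) 0).Finite := by
  have h1 := fin1 hm h
  rcases hd with hd | hd
  · have h2 := scale_finite hk h1
    have e1 : -4 * d = -(4 * (m : ℤ)) * k ^ 2 := by rw [hd]; ring
    have e2 : 2 * d ^ 2 = 2 * (m : ℤ) ^ 2 * k ^ 4 := by rw [hd]; ring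
    rw [e1, e2, ← zero_mul (k ^ 6)]
    exact h2
  · have h2 := scale_finite hk (fam1_finite h1)
    have e1 : -4 * d = 8 * (m : ℤ) * k ^ 2 := by rw [hd]; ring
    have e2 : 2 * d ^ 2 = 8 * (m : ℤ) ^ 2 * k ^ 4 := by rw [hd]; ring
    rw [e1, e2, ← zero_mul (k ^ 6)]
    exact h2

/-! ### the second family -/

open Pool.Agent.Run7.h289.D18 in
theorem pair_iff {u v : ℤ} : Pair u v ↔ Pr u v :=
  ⟨fun h => ⟨h.1, h.2, h.3, h.4⟩, fun h => ⟨h.1, h.2, h.3, h.4⟩⟩

open Pool.Agent.Run7.h289.D18 in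
theorem adm_iff {u v D : ℤ} : Admissible u v D ↔ Ad u v D :=
  ⟨fun h => ⟨h.1, h.2, h.3, h.4, h.5, h.6⟩, fun h => ⟨h.1, h.2, h.3, h.4, h.5, h.6⟩⟩

theorem pair_z {u v : ℤ} : Pair u v ↔ PrZ u v :=
  ⟨fun h => ⟨h.1, h.2, h.3, h.4⟩, fun ⟨h1, h2, h3, h4⟩ => ⟨h1, h2, h3, h4⟩⟩

theorem adm_z {u v D : ℤ} : Admissible u v D ↔ AdZ u v D :=
  ⟨fun h => ⟨h.1, h.2, h.3, h.4, h.5, h.6⟩, fun ⟨h1, h2, h3, h4, h5, h6⟩ =>
    ⟨h1, h2, h3, h4, h5, h6⟩⟩

theorem E_eq (u v D : ℤ) : E u v D = Pool.Agent.Run7.h289.D18.Ec u v D := by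
  unfold E W Pool.Agent.Run7.h289.D18.Ec
  congr 1 <;> (push_cast; ring)

theorem full_eq (u v d : ℤ) : full (u ^ 2 * d) (v ^ 2 * d) = Pl u v d := by
  unfold full Pl
  rw [cubic_eq]
  congr 1 <;> ring

theorem E_Wc (u v D : ℤ) : E u v D = Wc ((u ^ 2 + v ^ 2) * D) (u ^ 2 * v ^ 2 * D ^ 2) 0 := by
  rw [W_eq]
  unfold E
  congr 1 <;> ring

theorem triv2 {u v D : ℤ} (h : Pair u v) (hD : Admissible u v D) :
    Trivial (E u v D) ↔ QcZ D.natAbs := by
  rw [E_eq, trivial_iff]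
  exact Pool.Agent.Run7.h289.D18.crit (pair_iff.1 h) (adm_iff.1 hD)

theorem fin2_all {u v D k : ℤ} (h : Pair u v) (hD : D ≠ 0) (hk : k ≠ 0)
    (ht : Trivial (E u v D)) :
    (Pts ((u ^ 2 + v ^ 2) * (D * k ^ 2)) (u ^ 2 * v ^ 2 * (D * k ^ 2) ^ 2) 0).Finite := by
  have h1 := ht.finite
  rw [E_Wc] at h1
  have h2 := scale_finite hk (pts_finite ?_ h1)
  · have e1 : (u ^ 2 + v ^ 2) * (D * k ^ 2) = (u ^ 2 + v ^ 2) * D * k ^ 2 := by ring
    have e2 : u ^ 2 * v ^ 2 * (D * k ^ 2) ^ 2 = u ^ 2 * v ^ 2 * D ^ 2 * k ^ 4 := by ring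
    rw [e1, e2, ← zero_mul (k ^ 6)]
    exact h2
  · rw [disc_fam2]
    exact mul_ne_zero (mul_ne_zero (mul_ne_zero (pow_ne_zero 4 h.left) (pow_ne_zero 4 h.right))
      (pow_ne_zero 6 hD)) (pow_ne_zero 2 (sub_ne_zero.2 h.ne))

/-- the certificates of finiteness -/
def PFinA (L : List (List ℤ)) : Prop := PFin1 L ∨ PFin2 L

theorem fin_sound {L : List (List ℤ)} (h : PFinA L) : ¬ (Zeros L).Infinite := by
  rw [Set.not_infinite]
  rcases h with h | h
  · obtain ⟨m, k, ⟨h1, h2, h3⟩, hk, d, hd, rfl⟩ := (pFin1_iff L).1 h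
    rw [zeros_eq]
    exact fin1_all h1.ne_zero hk ((triv1 h1 h2).2 h3) hd
  · obtain ⟨u, v, D, k, hp, hA, hk, hQ, rfl⟩ := (pFin2_iff L).1 h
    unfold Pl
    rw [zeros_eq]
    exact fin2_all (pair_z.2 hp) hA.1.ne_zero hk ((triv2 (pair_z.2 hp) (adm_z.2 hA)).2 hQ)

theorem inf_sound {L : List (List ℤ)} (h : PInf L) : (Zeros L).Infinite := by
  obtain ⟨a, b, c, rfl, h1⟩ := pInf_sound h
  rw [zeros_eq]
  exact h1

theorem cert1 {m : ℕ} {k d : ℤ} (hm : Squarefree m) (hm2 : m % 2 = 1) (hk : k ≠ 0)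
    (hd : d = m * k ^ 2 ∨ d = -2 * (m * k ^ 2)) : PFinA (cm d) ↔ Trivial (A m) := by
  have hm0 : (m : ℤ) ≠ 0 := by exact_mod_cast hm.ne_zero
  have hd0 : d ≠ 0 := by
    rcases hd with h | h <;> rw [h]
    · exact mul_ne_zero hm0 (pow_ne_zero 2 hk)
    · exact mul_ne_zero (by norm_num) (mul_ne_zero hm0 (pow_ne_zero 2 hk))
  rw [triv1 hm hm2]
  constructor
  · rintro (h | h)
    · obtain ⟨m', k', ⟨h1, h2, h3⟩, hk', d', hd', h4⟩ := (pFin1_iff _).1 h
      obtain ⟨e1, -, -⟩ := poly_inj h4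
      have e : d = d' := by omega
      rw [← e] at hd'
      rw [twist_unique1 hm h1 hk hk' hd hd']
      exact h3
    · obtain ⟨u, v, D, k', hp, hA, hk', hQ, h4⟩ := (pFin2_iff _).1 h
      exact (disjoint_fam hd0 h4.symm).elim
  · intro h
    exact Or.inl ((pFin1_iff _).2 ⟨m, k, ⟨hm, hm2, h⟩, hk, d, hd, rfl⟩)

theorem cert2 {u v D k : ℤ} (hp : Pair u v) (hD : Admissible u v D) (hk : k ≠ 0) :
    PFinA (full (u ^ 2 * (D * k ^ 2)) (v ^ 2 * (D * k ^ 2))) ↔ Trivial (E u v D) := by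
  rw [triv2 hp hD, full_eq]
  constructor
  · rintro (h | h)
    · obtain ⟨m', k', ⟨h1, h2, h3⟩, hk', d', hd', h4⟩ := (pFin1_iff _).1 h
      refine (disjoint_fam ?_ h4).elim
      have hm0 : (m' : ℤ) ≠ 0 := by exact_mod_cast h1.ne_zero
      rcases hd' with h | h <;> rw [h]
      · exact mul_ne_zero hm0 (pow_ne_zero 2 hk')
      · exact mul_ne_zero (by norm_num) (mul_ne_zero hm0 (pow_ne_zero 2 hk'))
    · obtain ⟨U, V, D', k', hp', hA, hk', hQ, h4⟩ := (pFin2_iff _).1 h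
      rw [twist_unique (pair_z.1 hp) hp' hD.squarefree hA.1 hk hk' h4]
      exact hQ
  · intro h
    exact Or.inr ((pFin2_iff _).2 ⟨u, v, D, k, pair_z.1 hp, adm_z.1 hD, hk, h, rfl⟩)

/-! ### the counts -/

theorem num_mono {K Q K' Q' : ℕ → Prop} (h : ∀ m, K m → Q m → K' m ∧ Q' m) (X : ℕ) :
    num K Q X ≤ num K' Q' X := by
  unfold num
  have hf : Finite {m : ℕ // m ≤ X ∧ K' m ∧ Q' m} :=
    Finite.of_injective (β := Fin (X + 1)) (fun m => ⟨m.1, Nat.lt_succ_of_le m.2.1⟩)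
      fun a b hab => Subtype.ext (by simpa using hab)
  exact Nat.card_le_card_of_injective (fun m : {m : ℕ // m ≤ X ∧ K m ∧ Q m} =>
    (⟨m.1, m.2.1, h m.1 m.2.2.1 m.2.2.2⟩ : {m : ℕ // m ≤ X ∧ K' m ∧ Q' m}))
    fun a b hab => Subtype.ext (by simpa using hab)

open Classical in
theorem num_eq {C C' Q Q' : ℕ → Prop} (h0 : ∀ m, C m → m ≠ 0) (hC : ∀ m, C m ↔ C' m)
    (h : ∀ m, C m → (Q m ↔ Q' m)) (X : ℕ) :
    num C Q X = ((Finset.Icc 1 X).filter fun m => C' m ∧ Q' m).card := by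
  unfold num
  refine Nat.subtype_card _ fun m => ?_
  rw [Finset.mem_filter, Finset.mem_Icc]
  constructor
  · rintro ⟨⟨-, h2⟩, h3, h4⟩
    have hc := (hC m).2 h3
    exact ⟨h2, hc, (h m hc).2 h4⟩
  · rintro ⟨h2, hc, h5⟩
    exact ⟨⟨Nat.one_le_iff_ne_zero.2 (h0 m hc), h2⟩, (hC m).1 hc, (h m hc).1 h5⟩

open Classical in
/-- transport of a proportion -/
theorem prop_of {C C' Q Q' : ℕ → Prop} {t : ℝ} (h0 : ∀ m, C m → m ≠ 0) (hC : ∀ m, C m ↔ C' m)
    (h : ∀ m, C m → (Q m ↔ Q' m)) (ht : Tendsto (fun X : ℕ =>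
      (((Finset.Icc 1 X).filter fun m => C' m ∧ Q' m).card : ℝ) /
        (((Finset.Icc 1 X).filter fun m => C' m).card : ℝ)) atTop (𝓝 t)) : Proportion C Q t := by
  refine ht.congr fun X => ?_
  rw [num_eq h0 hC h X, num_eq (Q' := fun _ => True) h0 hC (fun _ _ => Iff.rfl) X]
  simp only [and_true]

theorem odd_case {m : ℕ} (h : OddSquarefree m) :
    Trivial (A m) ↔ Pool.Agent.Run7.h741.NT.Gd 7 Run7.h843.R.f16 m.primeFactors := by
  rw [triv1 h.1 (Nat.odd_iff.1 h.2), ← ns_eq, ← nsR_iff_gd]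

theorem odd_iff (m : ℕ) : OddSquarefree m ↔ Squarefree m ∧ m % 2 = 1 := by
  unfold OddSquarefree
  rw [Nat.odd_iff]

/-- all odd squarefree numbers -/
theorem dens1 {Q : ℕ → Prop} (hQ : ∀ m, OddSquarefree m → (Q m ↔ Trivial (A m))) :
    Proportion OddSquarefree Q η := by
  classical
  refine prop_of (C' := fun m => Squarefree m ∧ m % 2 = 1) (fun m h => h.1.ne_zero) odd_iff
    (fun m h => (hQ m h).trans (odd_case h)) ?_
  refine (Pool.Agent.Run7.h741.NT.densOdd 7 (Or.inr rfl) Run7.h843.R.f16).congr fun X => ?_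
  congr 3 <;> ext n <;> simp only [Finset.mem_filter, and_assoc]

theorem low1 : Positive OddSquarefree := by
  classical
  refine ⟨1 / (4 * ((8 : ℕ) : ℝ)), by norm_num, eventually_atTop.2 ⟨100 * 8 ^ 2, fun X hX => ?_⟩⟩
  refine (Pool.Agent.Run7.h741.NM.low (M := 8) (a := 1) (by norm_num) (by norm_num) (by norm_num)
    (by norm_num) X hX).trans ?_
  have h2 := num_eq (Q' := fun _ => True) (fun m h => h.1.ne_zero) odd_iff (fun _ _ => Iff.rfl) X
  rw [h2]
  refine Nat.cast_le.2 (Finset.card_le_card fun n hn => ?_)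
  simp only [Finset.mem_filter] at hn ⊢
  exact ⟨hn.1, ⟨hn.2.1, by omega⟩, trivial⟩

theorem odd_of {m N b : ℕ} (hN : 8 ∣ N) (hc : b.Coprime N) (h : Squarefree m ∧ m % N = b) :
    OddSquarefree m := by
  have hb2 : b % 2 = 1 := by
    by_contra h
    have h3 : 2 ∣ Nat.gcd b N := Nat.dvd_gcd (by omega) (by omega)
    rw [hc] at h3
    omega
  refine ⟨h.1, ?_⟩
  rw [Nat.odd_iff, ← Nat.mod_mod_of_dvd m (show 2 ∣ N by omega), h.2]
  exact hb2

/-- classes -/
theorem dens1N {Q : ℕ → Prop} (hQ : ∀ m, OddSquarefree m → (Q m ↔ Trivial (A m))) {N b : ℕ}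
    (hN : 8 ∣ N) (hb : b < N) (hc : b.Coprime N) :
    Proportion (fun m => Squarefree m ∧ m % N = b) Q η := by
  classical
  have hN0 : 0 < N := by omega
  have hb2 : b % 2 = 1 := by
    by_contra h
    have h3 : 2 ∣ Nat.gcd b N := Nat.dvd_gcd (by omega) (by omega)
    rw [hc] at h3
    omega
  refine prop_of (C' := fun m => Squarefree m ∧ m % N = b) (fun m h => h.1.ne_zero)
    (fun _ => Iff.rfl) (fun m h => (hQ m (odd_of hN hc h)).trans (odd_case (odd_of hN hc h))) ?_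
  refine (Pool.Agent.Run7.h741.NM.dens N hN hN0 7 (Or.inr rfl) Run7.h843.R.f16 {b}
    (fun a ha => ?_) b (Finset.mem_singleton_self b) hc).congr fun X => ?_
  · rw [Finset.mem_singleton.1 ha]
    exact ⟨hb, hb2⟩
  · congr 3 <;> ext n <;> simp only [Finset.mem_filter, Finset.mem_singleton, and_assoc]

theorem signed_iff {t : ℤ × ℤ × ℤ} : Signed t ↔ Pool.Agent.Run7.h289.D18.Tri t :=
  ⟨fun h => ⟨pair_iff.1 h.1, h.2⟩, fun h => ⟨pair_iff.2 h.1, h.2⟩⟩

theorem common_iff {F : Finset (ℤ × ℤ × ℤ)} {m : ℕ} :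
    Common F m ↔ Pool.Agent.Run7.h289.D18.Cm F m :=
  forall_congr' fun _ => forall_congr' fun _ => adm_iff

theorem natAbs_sign {t : ℤ × ℤ × ℤ} (h : Signed t) (m : ℕ) : (t.2.2 * (m : ℤ)).natAbs = m := by
  rcases h.sign with e | e
  · rw [e, one_mul, Int.natAbs_natCast]
  · rw [e, neg_one_mul, Int.natAbs_neg, Int.natAbs_natCast]

theorem triv_Nf {t : ℤ × ℤ × ℤ} (h : Signed t) {m : ℕ} (hm : Admissible t.1 t.2.1 (t.2.2 * m)) :
    Trivial (E t.1 t.2.1 (t.2.2 * m)) ↔ Pool.Agent.Run7.h289.D18.Nf m = 2 ^ (0 + 1) := by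
  rw [triv2 h.pair hm, natAbs_sign h]
  have h3 := hm.three
  rw [natAbs_sign h] at h3
  exact (Pool.Agent.Run7.h289.D18.Nf_two (by omega)).symm

theorem eta_eq : η = Run7.h843.L.gk 0 := by
  rw [Run7.h843.L.gk_eq]
  have e : Run7.h843.L.Qn 0 = 1 := by
    unfold Run7.h843.L.Qn
    simp
  rw [e]
  norm_num
  rfl

section

variable {F : Finset (ℤ × ℤ × ℤ)} (hF : ∀ t ∈ F, Signed t) (hne : F.Nonempty) {N b : ℕ}
  (hN : 0 < N) (hbc : b.Coprime N) (hex : ∃ m, Common F m ∧ m % N = b)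

include hF hne hN hbc hex

theorem dens2 {Q : ℤ × ℤ × ℤ → ℕ → Prop} (hQ : ∀ (t : ℤ × ℤ × ℤ) (m : ℕ), Signed t →
    Admissible t.1 t.2.1 (t.2.2 * m) → (Q t m ↔ Trivial (E t.1 t.2.1 (t.2.2 * m)))) :
    Proportion (fun m => Common F m ∧ m % N = b) (fun m => ∀ t ∈ F, Q t m) η := by
  have h := Pool.Agent.Run7.h289.D18.law (fun t ht => signed_iff.1 (hF t ht)) hne hN hbc
    (hex.imp fun m hm => ⟨common_iff.1 hm.1, hm.2⟩) 0
  rw [eta_eq]
  refine Pool.Agent.Run7.h289.D18.Prp.congr (fun m => and_congr_left fun _ => common_iff.symm)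
    (fun m hm => ?_) h
  constructor
  · intro h1 t ht
    have ha := common_iff.2 hm.1 t ht
    exact (hQ t m (hF t ht) ha).2 ((triv_Nf (hF t ht) ha).2 h1)
  · intro h1
    obtain ⟨t, ht⟩ := hne
    have ha := common_iff.2 hm.1 t ht
    exact (triv_Nf (hF t ht) ha).1 ((hQ t m (hF t ht) ha).1 (h1 t ht))

theorem low2 : Positive (fun m => Common F m ∧ m % N = b) := by
  obtain ⟨a, ha, h⟩ := Pool.Agent.Run7.h289.D18.low_law (fun t ht => signed_iff.1 (hF t ht)) hne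
    hN hbc (hex.imp fun m hm => ⟨common_iff.1 hm.1, hm.2⟩)
  refine ⟨a, ha, h.mono fun X hX => ?_⟩
  have e : num (fun m => Common F m ∧ m % N = b) (fun _ => True) X =
      Pool.Agent.Run7.h289.D18.nm (fun m => Pool.Agent.Run7.h289.D18.Cm F m ∧ m % N = b)
        (fun _ => True) X :=
    Pool.Agent.Run7.h289.D18.nm_congr (fun m => and_congr_left fun _ => common_iff)
      (fun _ _ => Iff.rfl) X
  rwa [e]

end

theorem num_add {K Q : ℕ → Prop} (X : ℕ) :
    num K Q X + num K (fun m => ¬ Q m) X = num K (fun _ => True) X := by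
  classical
  have key : ∀ R : ℕ → Prop, ∃ s : Finset ℕ, num K R X = s.card ∧
      ∀ m, m ∈ s ↔ m ≤ X ∧ K m ∧ R m := by
    intro R
    have hs : ∀ m, m ∈ (Finset.range (X + 1)).filter (fun m => K m ∧ R m) ↔
        m ≤ X ∧ K m ∧ R m := by
      intro m
      rw [Finset.mem_filter, Finset.mem_range, Nat.lt_succ_iff]
    exact ⟨_, Nat.subtype_card _ hs, hs⟩
  obtain ⟨s1, e1, h1⟩ := key Q
  obtain ⟨s2, e2, h2⟩ := key fun m => ¬ Q m
  obtain ⟨s3, e3, h3⟩ := key fun _ => True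
  have hu : s3 = s1 ∪ s2 := by
    ext m
    rw [Finset.mem_union, h1, h2, h3]
    tauto
  have hd : Disjoint s1 s2 := by
    rw [Finset.disjoint_left]
    intro m a1 a2
    exact ((h2 m).1 a2).2.2 ((h1 m).1 a1).2.2
  rw [e1, e2, e3, hu, Finset.card_union_of_disjoint hd]

theorem prop_compl {K Q Q' : ℕ → Prop} {θ : ℝ} (h : ∀ m, K m → (Q' m ↔ ¬ Q m))
    (hl : Positive K) (hq : Proportion K Q θ) : Proportion K Q' (1 - θ) := by
  obtain ⟨a, ha, hX⟩ := hl
  refine (hq.const_sub 1).congr' ?_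
  filter_upwards [hX, eventually_ge_atTop 1] with X h1 h2
  have hpos : (0 : ℝ) < num K (fun _ => True) X := by
    refine lt_of_lt_of_le ?_ h1
    have : (0 : ℝ) < X := by exact_mod_cast h2
    positivity
  have e : num K Q X + num K Q' X = num K (fun _ => True) X := by
    rw [← num_add (K := K) (Q := Q) X]
    congr 1
    exact Pool.Agent.Run7.h289.D18.nm_congr (fun _ => Iff.rfl) h X
  have e' : (num K Q X : ℝ) + num K Q' X = num K (fun _ => True) X := by exact_mod_cast e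
  rw [eq_div_iff hpos.ne', sub_mul, div_mul_cancel₀ _ hpos.ne', one_mul]
  linarith

theorem pos_of {K Q R : ℕ → Prop} {θ : ℝ} (hθ : 0 < θ) (hl : Positive K) (hq : Proportion K Q θ)
    (h : ∀ m, K m → Q m → R m) : Positive R := by
  obtain ⟨a, ha, hX⟩ := hl
  refine ⟨θ / 2 * a, by positivity, ?_⟩
  have h1 : ∀ᶠ X : ℕ in atTop, θ / 2 < (num K Q X : ℝ) / (num K (fun _ => True) X : ℝ) :=
    hq.eventually_const_lt (by linarith)
  filter_upwards [hX, h1, eventually_ge_atTop 1] with X h2 h3 h4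
  have hpos : (0 : ℝ) < num K (fun _ => True) X := by
    refine lt_of_lt_of_le ?_ h2
    have : (0 : ℝ) < X := by exact_mod_cast h4
    positivity
  rw [lt_div_iff₀ hpos] at h3
  have h5 : (num K Q X : ℝ) ≤ num R (fun _ => True) X := by
    exact_mod_cast num_mono (fun m hk hq => ⟨h m hk hq, trivial⟩) X
  have h6 : θ / 2 * (a * X) ≤ θ / 2 * num K (fun _ => True) X :=
    mul_le_mul_of_nonneg_left h2 (by positivity)
  linarith

end proof

/-- **A partial algorithm which decides a positive proportion of the quadratic twists.** -/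
theorem result :
    ∃ φ : List (List ℤ) →. Bool, Partrec φ ∧
    -- it is always right
    (∀ L, ∀ r ∈ φ L, (r = true ↔ (Zeros L).Infinite)) ∧
    -- it is defined where there are infinitely many zeros
    (∀ a b c : ℤ, (Zeros (cubic a b c)).Infinite → (φ (cubic a b c)).Dom) ∧
    -- the curves with full two-torsion and a cyclic isogeny of degree four
    (∀ u v D k : ℤ, Pair u v → Admissible u v D → k ≠ 0 →
      (false ∈ φ (full (u ^ 2 * (D * k ^ 2)) (v ^ 2 * (D * k ^ 2))) ↔ Trivial (E u v D)) ∧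
      ((φ (full (u ^ 2 * (D * k ^ 2)) (v ^ 2 * (D * k ^ 2)))).Dom ↔ Trivial (E u v D) ∨
        (Zeros (full (u ^ 2 * (D * k ^ 2)) (v ^ 2 * (D * k ^ 2)))).Infinite)) ∧
    (∀ F : Finset (ℤ × ℤ × ℤ), F.Nonempty → (∀ t ∈ F, Signed t) → ∀ N b : ℕ, 0 < N →
      b.Coprime N → (∃ m, Common F m ∧ m % N = b) →
      Positive (fun m => Common F m ∧ m % N = b) ∧
      Proportion (fun m => Common F m ∧ m % N = b) (fun m => ∀ t ∈ F, No φ t m) η ∧
      Proportion (fun m => Common F m ∧ m % N = b) (fun m => ∀ t ∈ F, ¬ No φ t m) (1 - η)) ∧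
    (∀ u v w : ℤ, Pair u v → ((w = 1 ∧ u * v % 2 = 1) ∨ (w = -1 ∧ u * v % 2 = 0)) →
      ∀ n : ℕ, ∃ m : ℕ, ∀ i ≤ n, Pair (u ^ 2 ^ i) (v ^ 2 ^ i) ∧
        Admissible (u ^ 2 ^ i) (v ^ 2 ^ i) (w * m)) ∧
    (∀ α β : ℚ, α ≠ 0 → β ≠ 0 → α ≠ β → IsSquare (α * β) → ∃ (t : ℚ) (B C : ℤ), t ≠ 0 ∧
      α = t * B ∧ β = t * C ∧ Positive fun m => Squarefree m ∧ false ∈ φ (full (B * m) (C * m))) ∧
    -- the curves with complex multiplication by `ℤ[√-2]`
    (∀ (m : ℕ) (k d : ℤ), Squarefree m → Odd m → k ≠ 0 → (d = m * k ^ 2 ∨ d = -2 * (m * k ^ 2)) →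
      (false ∈ φ (cm d) ↔ Trivial (A m)) ∧
      ((φ (cm d)).Dom ↔ Trivial (A m) ∨ (Zeros (cm d)).Infinite)) ∧
    Positive OddSquarefree ∧
    Proportion OddSquarefree (fun m => false ∈ φ (cm m) ∧ false ∈ φ (cm (-2 * m))) η ∧
    Proportion OddSquarefree (fun m => false ∉ φ (cm m) ∧ false ∉ φ (cm (-2 * m))) (1 - η) ∧
    (∀ N b : ℕ, 8 ∣ N → b < N → b.Coprime N →
      Proportion (fun m => Squarefree m ∧ m % N = b)
        (fun m => false ∈ φ (cm m) ∧ false ∈ φ (cm (-2 * m))) η) ∧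
    0.2887 < η ∧ η < 0.2889 := by
  open Pool.Agent.Run7.h250.QA in
  obtain ⟨φ, hφ, hdom, hval⟩ := exists_alg PInf PFinA re_PInf
    (Pool.Agent.Helper446.RE.or re_PFin1 re_PFin2)
  have hη : 0.2887 < η ∧ η < 0.2889 := Pool.Agent.N916.GB.eta_bounds
  have hsound : ∀ L, ∀ r ∈ φ L, (r = true ↔ (Zeros L).Infinite) := by
    intro L r hr
    rcases hval L r hr with ⟨rfl, h⟩ | ⟨rfl, h⟩
    · exact ⟨fun _ => inf_sound h, fun _ => rfl⟩
    · exact ⟨fun h' => Bool.noConfusion h', fun h' => absurd h' (fin_sound h)⟩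
  have hcomp : ∀ a b c : ℤ, (Zeros (cubic a b c)).Infinite → (φ (cubic a b c)).Dom := by
    intro a b c hA
    rw [cubic_eq, zeros_eq] at hA
    obtain ⟨x, y, h1, h2⟩ := exists_of_infinite' hA
    exact (hdom _).2 (Or.inl (pInf_of_point h1 h2))
  have hfalse : ∀ L, false ∈ φ L ↔ PFinA L := by
    intro L
    constructor
    · intro h
      rcases hval _ _ h with ⟨h1, -⟩ | ⟨-, h1⟩
      · exact Bool.noConfusion h1
      · exact h1
    · intro h
      obtain ⟨r, hr⟩ := Part.dom_iff_mem.1 ((hdom L).2 (Or.inr h))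
      rcases hval _ _ hr with ⟨-, h1⟩ | ⟨h1, -⟩
      · exact absurd (inf_sound h1) (fin_sound h)
      · rw [h1] at hr
        exact hr
  have hD : ∀ (a b c : ℤ) (T : Prop), (false ∈ φ (cubic a b c) ↔ T) →
      ((φ (cubic a b c)).Dom ↔ T ∨ (Zeros (cubic a b c)).Infinite) := by
    intro a b c T hT
    constructor
    · intro h
      obtain ⟨r, hr⟩ := Part.dom_iff_mem.1 h
      cases r with
      | true => exact Or.inr ((hsound _ _ hr).1 rfl)
      | false => exact Or.inl (hT.1 hr)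
    · rintro (h | h)
      · exact Part.dom_iff_mem.2 ⟨false, hT.2 h⟩
      · exact hcomp a b c h
  have hfull : ∀ u v D k : ℤ, Pair u v → Admissible u v D → k ≠ 0 →
      (false ∈ φ (full (u ^ 2 * (D * k ^ 2)) (v ^ 2 * (D * k ^ 2))) ↔ Trivial (E u v D)) :=
    fun u v D k hp hA hk => (hfalse _).trans (cert2 hp hA hk)
  have hNo : ∀ (t : ℤ × ℤ × ℤ) (m : ℕ), Signed t → Admissible t.1 t.2.1 (t.2.2 * m) →
      (No φ t m ↔ Trivial (E t.1 t.2.1 (t.2.2 * m))) := by
    intro t m ht hA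
    have h := hfull t.1 t.2.1 (t.2.2 * m) 1 ht.pair hA one_ne_zero
    rw [one_pow, mul_one] at h
    exact h
  have hcm : ∀ (m : ℕ) (k d : ℤ), Squarefree m → Odd m → k ≠ 0 →
      (d = m * k ^ 2 ∨ d = -2 * (m * k ^ 2)) → (false ∈ φ (cm d) ↔ Trivial (A m)) :=
    fun m k d hm hm2 hk hd => (hfalse _).trans (cert1 hm (Nat.odd_iff.1 hm2) hk hd)
  have hcm1 : ∀ m : ℕ, OddSquarefree m → (false ∈ φ (cm m) ↔ Trivial (A m)) :=
    fun m hm => hcm m 1 m hm.1 hm.2 one_ne_zero (Or.inl (by ring))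
  have hcm2 : ∀ m : ℕ, OddSquarefree m → (false ∈ φ (cm (-2 * m)) ↔ Trivial (A m)) :=
    fun m hm => hcm m 1 _ hm.1 hm.2 one_ne_zero (Or.inr (by ring))
  have hcm3 : ∀ m : ℕ, OddSquarefree m →
      ((false ∈ φ (cm m) ∧ false ∈ φ (cm (-2 * m))) ↔ Trivial (A m)) := by
    intro m hm
    rw [hcm1 m hm, hcm2 m hm, and_self]
  have hjoint : ∀ F : Finset (ℤ × ℤ × ℤ), F.Nonempty → (∀ t ∈ F, Signed t) → ∀ N b : ℕ, 0 < N →
      b.Coprime N → (∃ m, Common F m ∧ m % N = b) →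
      Positive (fun m => Common F m ∧ m % N = b) ∧
      Proportion (fun m => Common F m ∧ m % N = b) (fun m => ∀ t ∈ F, No φ t m) η ∧
      Proportion (fun m => Common F m ∧ m % N = b) (fun m => ∀ t ∈ F, ¬ No φ t m) (1 - η) := by
    intro F hne hF N b hN hb hex
    have h1 := low2 hF hne hN hb hex
    have h2 := dens2 hF hne hN hb hex hNo
    refine ⟨h1, h2, prop_compl (fun m hm => ?_) h1 h2⟩
    have hne' := hne
    obtain ⟨t0, ht0⟩ := hne'
    constructor
    · intro h h'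
      exact h t0 ht0 (h' t0 ht0)
    · intro h t ht h'
      have h3 := (triv_Nf (hF t ht) (hm.1 t ht)).1 ((hNo t m (hF t ht) (hm.1 t ht)).1 h')
      exact h fun s hs => (hNo s m (hF s hs) (hm.1 s hs)).2
        ((triv_Nf (hF s hs) (hm.1 s hs)).2 h3)
  have hexist : ∀ u v w : ℤ, Pair u v →
      ((w = 1 ∧ u * v % 2 = 1) ∨ (w = -1 ∧ u * v % 2 = 0)) →
      ∀ n : ℕ, ∃ m : ℕ, ∀ i ≤ n, Pair (u ^ 2 ^ i) (v ^ 2 ^ i) ∧
        Admissible (u ^ 2 ^ i) (v ^ 2 ^ i) (w * m) := by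
    intro u v w h hw n
    obtain ⟨m, -, hm⟩ := Pool.Agent.Run7.h289.D18.exists_adm (pair_iff.1 h) hw n
    exact ⟨m, fun i hi => ⟨pair_iff.2 (Pool.Agent.Run7.h289.D18.pr_pow (pair_iff.1 h) i),
      adm_iff.2 (hm i hi)⟩⟩
  refine ⟨φ, hφ, hsound, hcomp, ?_, hjoint, hexist, ?_, ?_, low1, dens1 hcm3, ?_, ?_, hη.1, hη.2⟩
  · intro u v D k hp hA hk
    have h1 := hfull u v D k hp hA hk
    exact ⟨h1, hD _ _ _ _ h1⟩
  · intro α β h1 h2 h3 h4
    obtain ⟨u, v, D, c, h5, h6, h7, h8, h9⟩ := Pool.Agent.Run7.h289.D18.classify h1 h2 h3 h4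
    have hp : Pair u v := pair_iff.2 h5
    obtain ⟨w, hw, hw2⟩ : ∃ w : ℤ, ((w = 1 ∧ u * v % 2 = 1) ∨ (w = -1 ∧ u * v % 2 = 0)) ∧
        w * w = 1 := by
      rcases Int.emod_two_eq_zero_or_one (u * v) with h | h
      · exact ⟨-1, Or.inr ⟨rfl, h⟩, by norm_num⟩
      · exact ⟨1, Or.inl ⟨rfl, h⟩, by norm_num⟩
    have hw1 : w = 1 ∨ w = -1 := hw.imp (fun h => h.1) fun h => h.1
    have hwQ : (w : ℚ) * w = 1 := by exact_mod_cast hw2
    have hD0 : (D : ℚ) ≠ 0 := by exact_mod_cast h6.ne_zero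
    refine ⟨c ^ 2 * D * w, w * u ^ 2, w * v ^ 2, ?_, ?_, ?_, ?_⟩
    · refine mul_ne_zero (mul_ne_zero (pow_ne_zero 2 h7) hD0) ?_
      intro h
      rw [h, zero_mul] at hwQ
      exact zero_ne_one hwQ
    · rw [h8]
      push_cast
      linear_combination (-c ^ 2 * D * u ^ 2) * hwQ
    · rw [h9]
      push_cast
      linear_combination (-c ^ 2 * D * v ^ 2) * hwQ
    · obtain ⟨m, hm⟩ := hexist u v w hp hw 0
      have hm0 := (hm 0 le_rfl).2
      rw [pow_zero, pow_one, pow_one] at hm0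
      have hF : ∀ t ∈ ({(u, v, w)} : Finset (ℤ × ℤ × ℤ)), Signed t := by
        intro t ht
        rw [Finset.mem_singleton.1 ht]
        exact ⟨hp, hw1⟩
      obtain ⟨g1, g2, -⟩ := hjoint {(u, v, w)} (Finset.singleton_nonempty _) hF 1 0 one_pos
        (Nat.coprime_one_right 0) ⟨m, fun t ht => by rw [Finset.mem_singleton.1 ht]; exact hm0,
          Nat.mod_one m⟩
      refine pos_of (by linarith [hη.1]) g1 g2 fun n hn hQ => ⟨?_, ?_⟩
      · have h10 := (hn.1 (u, v, w) (Finset.mem_singleton_self _)).squarefree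
        have h11 := Int.squarefree_natAbs.2 h10
        rwa [natAbs_sign (hF _ (Finset.mem_singleton_self _))] at h11
      · have h10 := hQ (u, v, w) (Finset.mem_singleton_self _)
        unfold No at h10
        rw [show w * u ^ 2 * (n : ℤ) = u ^ 2 * (w * n) by ring,
          show w * v ^ 2 * (n : ℤ) = v ^ 2 * (w * n) by ring]
        exact h10
  · intro m k d hm hm2 hk hd
    have h1 := hcm m k d hm hm2 hk hd
    exact ⟨h1, hD _ _ _ _ h1⟩
  · refine prop_compl (fun m hm => ?_) low1 (dens1 hcm3)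
    rw [hcm3 m hm]
    have e1 := hcm1 m hm
    have e2 := hcm2 m hm
    rw [e1, e2, and_self]
  · intro N b hN hb hc
    exact dens1N hcm3 hN hb hc

end Pool.Agent.Results.MP_d6ddbd_nt.QuadraticTwists
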